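import Pool.Agent.LBD.Loc

/-!
Theorem LOC in the form used by the tower (GTW): `B` arbitrary, the splitting given by a projection.
-/

set_option autoImplicit false

namespace Pool.Agent.LBD

open CommonSlot Module

namespace Pi_

variable {V B : Type} [AddCommGroup V] [Module (ZMod 2) V] [AddCommGroup B] [Module (ZMod 2) B]

/-- the span of the values -/
def val (q : V →ₗ[ZMod 2] V →ₗ[ZMod 2] B) : Submodule (ZMod 2) B :=
  Submodule.span (ZMod 2) (Set.range fun x : V × V => q x.1 x.2)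

theorem mem_val (q : V →ₗ[ZMod 2] V →ₗ[ZMod 2] B) (a b : V) : q a b ∈ val q :=
  Submodule.subset_span ⟨(a, b), rfl⟩

theorem finite_val [Finite V] (q : V →ₗ[ZMod 2] V →ₗ[ZMod 2] B) : Finite (val q) := by
  have : FiniteDimensional (ZMod 2) (val q) :=
    FiniteDimensional.span_of_finite (ZMod 2) (Set.finite_range _)
  exact Module.finite_of_finite (ZMod 2)

/-- the corestriction of `q` to the span of its values -/
noncomputable def cor (q : V →ₗ[ZMod 2] V →ₗ[ZMod 2] B) : V →ₗ[ZMod 2] V →ₗ[ZMod 2] val q where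
  toFun a := (q a).codRestrict (val q) (mem_val q a)
  map_add' a b := by
    ext v
    simp
  map_smul' r a := by
    ext v
    simp

theorem cor_val (q : V →ₗ[ZMod 2] V →ₗ[ZMod 2] B) (a b : V) : ((cor q a b : val q) : B) = q a b :=
  rfl

theorem cor_linked {q : V →ₗ[ZMod 2] V →ₗ[ZMod 2] B} (hq : IsLinked q 0) :
    IsLinked (cor q) 0 := by
  refine ⟨?_, ?_, ?_⟩
  · intro a b
    apply Subtype.ext
    rw [cor_val, cor_val, hq.symm]
  · intro a
    apply Subtype.ext
    rw [cor_val, cor_val, hq.diag]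
  · intro a b a' b' h
    have h' : q a b = q a' b' := by rw [← cor_val, h, cor_val]
    obtain ⟨s, h1, h2⟩ := hq.link _ _ _ _ h'
    refine ⟨s, Subtype.ext ?_, Subtype.ext ?_⟩
    · rw [cor_val, cor_val, h1]
    · rw [cor_val, cor_val, h2]

end Pi_

open Pi_ Loc_ in
/-- **Theorem LOC**, projection form. -/
theorem loc_pi {V B : Type} [AddCommGroup V] [Module (ZMod 2) V] [AddCommGroup B]
    [Module (ZMod 2) B] [Finite V] (q : V →ₗ[ZMod 2] V →ₗ[ZMod 2] B)
    (hq : IsLinked q 0) (hnd : ∀ v, (∀ w, q v w = 0) → v = 0) (c : B) (p p' : V) (hc : c ≠ 0)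
    (hp : ∀ v, q p v = 0 ∨ q p v = c) (hp' : ∀ v, q p' v = 0 ∨ q p' v = c)
    (hpp : q p p' = c) :
    ∃ pi : V →ₗ[ZMod 2] V, (∀ v, pi (pi v) = pi v) ∧
      (∀ v w, q (pi v) w = 0 ∨ q (pi v) w = c) ∧
      (∀ v w, q (pi v) (w + pi w) = 0) ∧
      (∀ v w, q (v + pi v) (w + pi w) ≠ c) ∧
      (∀ y, (∀ v, q y v = 0 ∨ q y v = c) → pi y = y) ∧
      (∀ a b a' b', (q a b = q a' b' ∨ q a b = q a' b' + c) →
        ∃ s, (q a s = q a b ∨ q a s = q a b + c) ∧ (q a' s = q a b ∨ q a' s = q a b + c)) := by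
  have hcc : c + c = 0 := ZModModule.add_self c
  have hfin : Finite (val q) := finite_val q
  have hcm : c ∈ val q := hpp ▸ mem_val q p p'
  let c' : val q := ⟨c, hcm⟩
  have hval : ∀ a b, cor q a b = c' ↔ q a b = c := fun a b =>
    ⟨fun h => by rw [← cor_val, h], fun h => Subtype.ext h⟩
  have hval0 : ∀ a b, cor q a b = 0 ↔ q a b = 0 := fun a b =>
    ⟨fun h => by rw [← cor_val, h]; rfl, fun h => Subtype.ext h⟩
  have hPP : ∀ y, y ∈ PP (cor q) c' ↔ ∀ v, q y v = 0 ∨ q y v = c := by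
    intro y
    rw [mem_PP]
    exact forall_congr' fun v => by rw [hval, hval0]
  have hc' : c' ≠ 0 := fun h => hc (congrArg Subtype.val h)
  have hnd' : Nondeg (cor q) := by
    intro a ha
    exact hnd a fun v => (hval0 a v).1 (ha v)
  obtain ⟨hcompl, h5⟩ := loc (cor q) (cor_linked hq) hnd' c'
    ⟨hc', p, (hPP p).2 hp, p', (hPP p').2 hp', (hval p p').2 hpp⟩
  let X := PP (cor q) c'
  let Y := perp (cor q) X
  have hXY : IsCompl X Y := hcompl
  let pi : V →ₗ[ZMod 2] V := X.subtype.comp (X.projectionOnto Y hXY)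
  have hpiX : ∀ v, pi v ∈ X := fun v => (X.projectionOnto Y hXY v).2
  have hpiY : ∀ v, v + pi v ∈ Y := by
    intro v
    have h1 : X.projectionOnto Y hXY (v + pi v) = 0 := by
      rw [map_add]
      have h2 : X.projectionOnto Y hXY (pi v) = X.projectionOnto Y hXY v :=
        Submodule.projectionOnto_apply_left hXY _
      rw [h2, ZModModule.add_self]
    exact (Submodule.projectionOnto_apply_eq_zero_iff hXY).1 h1
  have hpifix : ∀ y, y ∈ X → pi y = y := by
    intro y hy
    have := Submodule.projectionOnto_apply_left hXY ⟨y, hy⟩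
    show ((X.projectionOnto Y hXY y : X) : V) = y
    rw [this]
  refine ⟨pi, fun v => hpifix _ (hpiX v), fun v w => (hPP _).1 (hpiX v) w, ?_, ?_, ?_, ?_⟩
  · intro v w
    exact (hval0 _ _).1 (hpiY w _ (hpiX v))
  · intro v w h
    exact h5 _ (hpiY v) _ ((hval _ _).2 h)
  · intro y hy
    exact hpifix y ((hPP y).2 hy)
  · intro a b a' b' h
    rcases h with h | h
    · obtain ⟨s, h1, h2⟩ := hq.link _ _ _ _ h
      exact ⟨s, Or.inl h1, Or.inl h2⟩
    · obtain ⟨s, h1, h2⟩ := link_mod (c := c) hq (fun v => hp v) (fun v => hp' v) hpp a b a' b' h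
      have e : q a' b' = q a b + c := by rw [h, add_assoc, hcc, add_zero]
      have e2 : q a' b' + c = q a b := by rw [h]
      refine ⟨s, ?_, ?_⟩
      · rw [e2, e] at h1
        exact h1.symm
      · rw [e2, e] at h2
        exact h2.symm

end Pool.Agent.LBD
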