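import Pool.Agent.Lib_MP_d26ff6_al.Main

/-!
# LBD: local factors split off; bounded dimension (MP_d26ff6_al, general theorem)
Abstract linked structures `(V, B, q)` with `-1 = 1`.  Notes 1602 (LOC) and 1625 (BD).
-/

set_option autoImplicit false

namespace Pool.Agent.LBD

open CommonSlot Module

section
variable {V B : Type} [AddCommGroup V] [Module (ZMod 2) V] [AddCommGroup B] [Module (ZMod 2) B]

/-- sums of elements of `{0, c}` -/
theorem add_mem_pair {c a b : B} (ha : a = 0 ∨ a = c) (hb : b = 0 ∨ b = c) :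
    a + b = 0 ∨ a + b = c := by
  rcases ha with rfl | rfl <;> rcases hb with rfl | rfl <;> simp [ZModModule.add_self]

/-- `P_c = {y : Q_y ⊆ {0, c}}` -/
def PP (q : V →ₗ[ZMod 2] V →ₗ[ZMod 2] B) (c : B) : Submodule (ZMod 2) V where
  carrier := {y | ∀ v, q y v = 0 ∨ q y v = c}
  add_mem' := by
    intro a b ha hb v
    rw [map_add, LinearMap.add_apply]
    exact add_mem_pair (ha v) (hb v)
  zero_mem' := by
    intro v
    left
    rw [map_zero, LinearMap.zero_apply]
  smul_mem' := by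
    intro r x hx v
    rcases zm r with rfl | rfl
    · left
      rw [zero_smul, map_zero, LinearMap.zero_apply]
    · rw [one_smul]
      exact hx v

theorem mem_PP {q : V →ₗ[ZMod 2] V →ₗ[ZMod 2] B} {c : B} {y : V} :
    y ∈ PP q c ↔ ∀ v, q y v = 0 ∨ q y v = c := Iff.rfl

/-- orthogonal complement of a subspace -/
def perp (q : V →ₗ[ZMod 2] V →ₗ[ZMod 2] B) (X : Submodule (ZMod 2) V) :
    Submodule (ZMod 2) V where
  carrier := {v | ∀ y ∈ X, q y v = 0}
  add_mem' := by
    intro a b ha hb y hy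
    rw [map_add, ha y hy, hb y hy, add_zero]
  zero_mem' := by
    intro y _
    rw [map_zero]
  smul_mem' := by
    intro r x hx y hy
    rw [map_smul, hx y hy, smul_zero]

theorem mem_perp {q : V →ₗ[ZMod 2] V →ₗ[ZMod 2] B} {X : Submodule (ZMod 2) V} {v : V} :
    v ∈ perp q X ↔ ∀ y ∈ X, q y v = 0 := Iff.rfl

/-- there is a hyperbolic pair with value `c` -/
def Hyp (q : V →ₗ[ZMod 2] V →ₗ[ZMod 2] B) (c : B) : Prop :=
  c ≠ 0 ∧ ∃ p ∈ PP q c, ∃ p' ∈ PP q c, q p p' = c

/-- nondegenerate -/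
def Nondeg (q : V →ₗ[ZMod 2] V →ₗ[ZMod 2] B) : Prop := ∀ a, (∀ v, q a v = 0) → a = 0

theorem exists_functional_one {c : B} (hc : c ≠ 0) : ∃ μ : B →ₗ[ZMod 2] ZMod 2, μ c = 1 := by
  obtain ⟨f, hf, -⟩ := exists_functional (p := (⊥ : Submodule (ZMod 2) B)) (x := c) (by
    rw [Submodule.mem_bot]
    exact hc)
  exact ⟨f, zm_ne_zero hf⟩

end

end Pool.Agent.LBD
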