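import Pool.Agent.LBD.Par

/-!
Theorem LOC (note 1602): a hyperbolic pair of rank one elements splits off a local factor.
-/

set_option autoImplicit false

namespace Pool.Agent.LBD

open CommonSlot Module

section
variable {V B : Type} [AddCommGroup V] [Module (ZMod 2) V] [AddCommGroup B] [Module (ZMod 2) B]

theorem mem_span_pair {c b : B} : b ∈ Submodule.span (ZMod 2) {c} ↔ b = 0 ∨ b = c := by
  rw [Submodule.mem_span_singleton]
  constructor
  · rintro ⟨r, rfl⟩
    rcases zm r with rfl | rfl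
    · left; rw [zero_smul]
    · right; rw [one_smul]
  · rintro (rfl | rfl)
    · exact ⟨0, zero_smul _ _⟩
    · exact ⟨1, one_smul _ _⟩

/-- the quotient form `V/P_c × V/P_c → B/{0,c}` -/
noncomputable def quo (q : V →ₗ[ZMod 2] V →ₗ[ZMod 2] B) (hs : ∀ a b, q a b = q b a) (c : B) :
    (V ⧸ PP q c) →ₗ[ZMod 2] (V ⧸ PP q c) →ₗ[ZMod 2] (B ⧸ Submodule.span (ZMod 2) {c}) :=
  (PP q c).liftQ
    (((PP q c).liftQ (q.compr₂ (Submodule.span (ZMod 2) {c}).mkQ) (by
      intro y hy
      rw [LinearMap.mem_ker]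
      ext v
      rw [LinearMap.compr₂_apply, LinearMap.zero_apply, Submodule.mkQ_apply,
        Submodule.Quotient.mk_eq_zero, mem_span_pair]
      exact hy v)).flip) (by
      intro y hy
      rw [LinearMap.mem_ker]
      ext v
      rw [LinearMap.comp_apply, LinearMap.flip_apply, Submodule.mkQ_apply, Submodule.liftQ_apply,
        LinearMap.compr₂_apply, Submodule.mkQ_apply, LinearMap.comp_apply, LinearMap.zero_apply,
        Submodule.Quotient.mk_eq_zero, mem_span_pair, hs]
      exact hy v)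

theorem quo_mk (q : V →ₗ[ZMod 2] V →ₗ[ZMod 2] B) (hs : ∀ a b, q a b = q b a) (c : B) (a b : V) :
    quo q hs c ((PP q c).mkQ a) ((PP q c).mkQ b) =
      (Submodule.span (ZMod 2) {c}).mkQ (q b a) := rfl

theorem mk_eq {c a b : B} : (Submodule.span (ZMod 2) {c}).mkQ a =
    (Submodule.span (ZMod 2) {c}).mkQ b ↔ a = b ∨ a = b + c := by
  rw [Submodule.mkQ_apply, Submodule.mkQ_apply, Submodule.Quotient.eq, mem_span_pair]
  constructor
  · rintro (h | h)
    · left; exact sub_eq_zero.1 h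
    · right; rw [← h]; abel
  · rintro (rfl | rfl)
    · left; rw [sub_self]
    · right; abel

end

namespace Loc_

variable {V B : Type} [AddCommGroup V] [Module (ZMod 2) V] [AddCommGroup B] [Module (ZMod 2) B]
  {q : V →ₗ[ZMod 2] V →ₗ[ZMod 2] B} {c : B} {p p' : V}

theorem alt (hq : IsLinked q 0) (a : V) : q a a = 0 := by
  rw [hq.diag, map_zero]

/-- linkage modulo `c`, asymmetric version -/
theorem link_mod (hq : IsLinked q 0) (hp : p ∈ PP q c) (hp' : p' ∈ PP q c) (hpp : q p p' = c)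
    (a b a' b' : V) (h : q a b = q a' b' + c) :
    ∃ s, (q a s = q a' b' ∨ q a s = q a' b' + c) ∧ (q a' s = q a' b' ∨ q a' s = q a' b' + c) := by
  have hcc : c + c = 0 := ZModModule.add_self c
  -- the case of a change of `b`
  have c1 : ∀ r : V, r ∈ PP q c → q r a = c → ∃ s, (q a s = q a' b' ∨ q a s = q a' b' + c) ∧
      (q a' s = q a' b' ∨ q a' s = q a' b' + c) := by
    intro r _ hra
    have h1 : q a (b + r) = q a' b' := by
      rw [map_add, h, hq.symm a r, hra, add_assoc, hcc, add_zero]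
    obtain ⟨s, hs1, hs2⟩ := hq.link _ _ _ _ h1
    rw [h1] at hs1 hs2
    exact ⟨s, Or.inl hs1, Or.inl hs2⟩
  have c2 : ∀ r : V, r ∈ PP q c → q r b = c → ∃ s, (q a s = q a' b' ∨ q a s = q a' b' + c) ∧
      (q a' s = q a' b' ∨ q a' s = q a' b' + c) := by
    intro r hr hrb
    have h1 : q (a + r) b = q a' b' := by
      rw [map_add, LinearMap.add_apply, h, hrb, add_assoc, hcc, add_zero]
    obtain ⟨s, hs1, hs2⟩ := hq.link _ _ _ _ h1
    rw [h1] at hs1 hs2
    refine ⟨s, ?_, Or.inl hs2⟩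
    rw [map_add, LinearMap.add_apply] at hs1
    rcases hr s with h2 | h2
    · left; rw [← hs1, h2, add_zero]
    · right; rw [← hs1, h2, add_assoc, hcc, add_zero]
  rcases hp a with h1 | h1
  swap
  · exact c1 p hp h1
  rcases hp' a with h2 | h2
  swap
  · exact c1 p' hp' h2
  rcases hp b with h3 | h3
  swap
  · exact c2 p hp h3
  rcases hp' b with h4 | h4
  swap
  · exact c2 p' hp' h4
  have h5 : q (a + p) (b + p') = q a' b' := by
    rw [map_add, map_add, LinearMap.add_apply, LinearMap.add_apply, h3, hq.symm a p', h2, hpp, h,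
      add_zero, zero_add, add_assoc, hcc, add_zero]
  obtain ⟨s, hs1, hs2⟩ := hq.link _ _ _ _ h5
  rw [h5] at hs1 hs2
  refine ⟨s, ?_, Or.inl hs2⟩
  rw [map_add, LinearMap.add_apply] at hs1
  rcases hp s with h6 | h6
  · left; rw [← hs1, h6, add_zero]
  · right; rw [← hs1, h6, add_assoc, hcc, add_zero]

/-- the quotient is linked -/
theorem quo_linked (hq : IsLinked q 0) (hp : p ∈ PP q c) (hp' : p' ∈ PP q c)
    (hpp : q p p' = c) : IsLinked (quo q hq.symm c) 0 := by
  refine ⟨?_, ?_, ?_⟩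
  · intro a b
    obtain ⟨a, rfl⟩ := (PP q c).mkQ_surjective a
    obtain ⟨b, rfl⟩ := (PP q c).mkQ_surjective b
    rw [quo_mk, quo_mk, hq.symm]
  · intro a
    obtain ⟨a, rfl⟩ := (PP q c).mkQ_surjective a
    rw [quo_mk, alt hq, map_zero, map_zero]
  · intro a b a' b' h
    obtain ⟨a, rfl⟩ := (PP q c).mkQ_surjective a
    obtain ⟨b, rfl⟩ := (PP q c).mkQ_surjective b
    obtain ⟨a', rfl⟩ := (PP q c).mkQ_surjective a'
    obtain ⟨b', rfl⟩ := (PP q c).mkQ_surjective b'
    have h0 := h
    rw [quo_mk, quo_mk, mk_eq, hq.symm b a, hq.symm b' a'] at h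
    rcases h with h | h
    · obtain ⟨s, hs1, hs2⟩ := hq.link _ _ _ _ h
      refine ⟨(PP q c).mkQ s, ?_, ?_⟩
      · rw [quo_mk, quo_mk, hq.symm s a, hs1, hq.symm b a]
      · rw [quo_mk, quo_mk, hq.symm s a', hs2, hq.symm b a]
    · obtain ⟨s, hs1, hs2⟩ := link_mod hq hp hp' hpp a b a' b' h
      refine ⟨(PP q c).mkQ s, ?_, ?_⟩
      · rw [h0, quo_mk, quo_mk, mk_eq, hq.symm s a, hq.symm b' a']
        exact hs1
      · rw [h0, quo_mk, quo_mk, mk_eq, hq.symm s a', hq.symm b' a']
        exact hs2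

theorem quo_nondeg (hq : IsLinked q 0) : Nondeg (quo q hq.symm c) := by
  intro a ha
  obtain ⟨a, rfl⟩ := (PP q c).mkQ_surjective a
  rw [Submodule.mkQ_apply, Submodule.Quotient.mk_eq_zero]
  intro v
  have h := ha ((PP q c).mkQ v)
  rw [quo_mk, Submodule.mkQ_apply, Submodule.Quotient.mk_eq_zero, mem_span_pair, hq.symm] at h
  exact h

/-- (J): the parity lemma for the quotient -/
theorem par_mod [Finite V] [Finite B] (hq : IsLinked q 0) (hp : p ∈ PP q c) (hp' : p' ∈ PP q c)
    (hpp : q p p' = c) (χ : V →ₗ[ZMod 2] ZMod 2) (hχ : ∀ y ∈ PP q c, χ y = 0) :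
    ∃ g, ∀ v, (q g v = 0 ∨ q g v = c) → χ v = 0 := by
  by_cases h0 : χ = 0
  · exact ⟨0, fun v _ => by rw [h0, LinearMap.zero_apply]⟩
  have hle : PP q c ≤ LinearMap.ker χ := fun y hy => LinearMap.mem_ker.2 (hχ y hy)
  have h1 : (PP q c).liftQ χ hle ≠ 0 := by
    intro h
    apply h0
    ext v
    have := LinearMap.congr_fun h ((PP q c).mkQ v)
    simpa using this
  have : Finite (V ⧸ PP q c) := Finite.of_surjective _ (PP q c).mkQ_surjective
  have : Finite (B ⧸ Submodule.span (ZMod 2) {c}) :=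
    Finite.of_surjective _ (Submodule.span (ZMod 2) {c}).mkQ_surjective
  obtain ⟨g, hg⟩ := parity (quo q hq.symm c) (quo_linked hq hp hp' hpp) (quo_nondeg hq) _ h1
  obtain ⟨g, rfl⟩ := (PP q c).mkQ_surjective g
  refine ⟨g, fun v hv => ?_⟩
  have h2 := hg ((PP q c).mkQ v) (by
    rw [quo_mk, Submodule.mkQ_apply, Submodule.Quotient.mk_eq_zero, mem_span_pair, hq.symm]
    exact hv)
  simpa using h2

/-- `N_c + S_c ⊆ S_c` -/
theorem N_add_S (hq : IsLinked q 0) (hp : p ∈ PP q c) (hp' : p' ∈ PP q c) (hpp : q p p' = c)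
    {z s : V} (hz : ∀ v, q z v ≠ c) (hs : ∃ v, q s v = c) : ∃ v, q (z + s) v = c := by
  have hcc : c + c = 0 := ZModModule.add_self c
  have hzp : q z p = 0 := by
    rcases hp z with h | h
    · rw [hq.symm]; exact h
    · exact absurd (by rw [hq.symm]; exact h) (hz p)
  have hzp' : q z p' = 0 := by
    rcases hp' z with h | h
    · rw [hq.symm]; exact h
    · exact absurd (by rw [hq.symm]; exact h) (hz p')
  rcases hp s with h1 | h1
  swap
  · exact ⟨p, by rw [map_add, LinearMap.add_apply, hzp, hq.symm s p, h1, zero_add]⟩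
  obtain ⟨t, ht⟩ := hs
  have h2 : q (z + p) p' = q s t := by
    rw [map_add, LinearMap.add_apply, hzp', hpp, ht, zero_add]
  obtain ⟨u, hu1, hu2⟩ := hq.link _ _ _ _ h2
  rw [h2, ht] at hu1 hu2
  rw [map_add, LinearMap.add_apply] at hu1
  rcases hp u with h3 | h3
  · rw [h3, add_zero] at hu1
    exact absurd hu1 (hz u)
  · rw [h3] at hu1
    have h4 : q z u = 0 := by
      have h5 : q z u + c + c = c + c := by rw [hu1]
      rw [add_assoc, hcc, add_zero] at h5
      exact h5
    exact ⟨u, by rw [map_add, LinearMap.add_apply, h4, hu2, zero_add]⟩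

/-- the common part of (4) and (5): a symbol equal to `c` in the orthogonal complement -/
theorem no_c [Finite V] [Finite B] (hq : IsLinked q 0) (hc : c ≠ 0) (hp : p ∈ PP q c)
    (hp' : p' ∈ PP q c) (hpp : q p p' = c) {y : V} (hy : ∀ r ∈ PP q c, q r y = 0) (u : V) :
    q y u ≠ c := by
  intro hyu
  obtain ⟨μ, hμ⟩ := exists_functional_one hc
  obtain ⟨g, hg⟩ := par_mod hq hp hp' hpp (act q μ y) (by
    intro r hr
    rw [act_apply, hq.symm, hy r hr, map_zero])
  simp only [act_apply] at hg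
  -- `g ∈ N`
  have hgN : ∀ v, q g v ≠ c := by
    intro v hv
    obtain ⟨w, hw1, hw2⟩ := hq.link g v y u (hv.trans hyu.symm)
    rw [hv] at hw1 hw2
    have := hg w (Or.inr hw1)
    rw [hw2, hμ] at this
    exact one_ne_zero this
  obtain ⟨u', hu'⟩ := N_add_S hq hp hp' hpp hgN ⟨u, hyu⟩
  -- factor `act q μ y` through `q g`
  have h1 : act q μ y ∈ (LinearMap.ker (q g)).dualAnnihilator := by
    rw [Submodule.mem_dualAnnihilator]
    intro v hv
    exact hg v (Or.inl hv)
  rw [← LinearMap.range_dualMap_eq_dualAnnihilator_ker] at h1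
  obtain ⟨j, hj⟩ := h1
  have h2 : act q j g = act q μ y := by
    ext v
    exact LinearMap.congr_fun hj v
  obtain ⟨κ, hk1, hk2⟩ := dual_link hq h2
  rw [h2] at hk1 hk2
  have h3 : κ c = 0 := by
    rw [← hu', map_add, LinearMap.add_apply, map_add]
    have e1 : κ (q g u') = μ (q y u') := LinearMap.congr_fun hk1 u'
    have e2 : κ (q y u') = μ (q y u') := LinearMap.congr_fun hk2 u'
    rw [e1, e2, ZModModule.add_self]
  have h4 : κ c = 1 := by
    have e2 : κ (q y u) = μ (q y u) := LinearMap.congr_fun hk2 u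
    rw [← hyu, e2, hyu, hμ]
  rw [h3] at h4
  exact zero_ne_one h4

end Loc_

open Loc_ in
/-- **Theorem LOC.** -/
theorem loc {V B : Type} [AddCommGroup V] [Module (ZMod 2) V] [AddCommGroup B]
    [Module (ZMod 2) B] [Finite V] [Finite B] (q : V →ₗ[ZMod 2] V →ₗ[ZMod 2] B)
    (hq : IsLinked q 0) (hnd : Nondeg q) (c : B) (hc : Hyp q c) :
    IsCompl (PP q c) (perp q (PP q c)) ∧ ∀ v ∈ perp q (PP q c), ∀ w, q v w ≠ c := by
  obtain ⟨hc0, p, hp, p', hp', hpp⟩ := hc
  have h5 : ∀ v ∈ perp q (PP q c), ∀ w, q v w ≠ c := fun v hv w =>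
    no_c hq hc0 hp hp' hpp hv w
  have hdisj : Disjoint (PP q c) (perp q (PP q c)) := by
    rw [Submodule.disjoint_def]
    intro y hy hy'
    apply hnd
    intro v
    rcases hy v with h | h
    · exact h
    · exact absurd h (h5 y hy' v)
  refine ⟨⟨hdisj, ?_⟩, h5⟩
  -- codisjoint
  rw [codisjoint_iff, eq_top_iff]
  intro v _
  obtain ⟨μ, hμ⟩ := exists_functional_one hc0
  let φ : PP q c →ₗ[ZMod 2] (PP q c →ₗ[ZMod 2] ZMod 2) :=
    { toFun := fun y => (act q μ (y : V)).comp (PP q c).subtype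
      map_add' := fun a b => by ext z; simp
      map_smul' := fun r a => by ext z; simp }
  have hφ : Function.Injective φ := by
    rw [injective_iff_map_eq_zero]
    intro y hy
    apply Subtype.ext
    have hmem : (y : V) ∈ perp q (PP q c) := by
      intro r hr
      have h := LinearMap.congr_fun hy ⟨r, hr⟩
      have h' : μ (q (y : V) r) = 0 := h
      rcases hr (y : V) with h1 | h1
      · exact h1
      · rw [hq.symm, h1, hμ] at h'
        exact absurd h' one_ne_zero
    exact (Submodule.disjoint_def.1 hdisj) _ y.2 hmem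
  have hfd : FiniteDimensional (ZMod 2) (PP q c) := inferInstance
  have hsurj : Function.Surjective φ := by
    have h1 : finrank (ZMod 2) (PP q c) = finrank (ZMod 2) (PP q c →ₗ[ZMod 2] ZMod 2) :=
      (Subspace.dual_finrank_eq (K := ZMod 2) (V := PP q c)).symm
    exact (LinearMap.injective_iff_surjective_of_finrank_eq_finrank h1).1 hφ
  obtain ⟨y, hy⟩ := hsurj ((act q μ v).comp (PP q c).subtype)
  have hmem : v + (y : V) ∈ perp q (PP q c) := by
    intro r hr
    have h := LinearMap.congr_fun hy ⟨r, hr⟩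
    have h' : μ (q (y : V) r) = μ (q v r) := h
    rcases hr (v + y) with h1 | h1
    · exact h1
    · have h2 : μ (q r (v + y)) = 0 := by
        rw [map_add, map_add, hq.symm r v, hq.symm r y, h', ZModModule.add_self]
      rw [h1, hμ] at h2
      exact absurd h2 one_ne_zero
  have h2 : v = (y : V) + (v + y) := by
    rw [add_comm v, ← add_assoc, ZModModule.add_self, zero_add]
  rw [h2]
  exact Submodule.add_mem_sup y.2 hmem

end Pool.Agent.LBD
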