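import Pool.Agent.LBD.Defs

/-!
The parity lemma: in a finite nondegenerate linked structure every nonzero functional on `V`
vanishes on some `V_g`.
-/

set_option autoImplicit false

namespace Pool.Agent.LBD

open CommonSlot Module

namespace Par_

variable {V B : Type} [AddCommGroup V] [Module (ZMod 2) V] [AddCommGroup B] [Module (ZMod 2) B]

/-- the sign `(-1)^{χ v}` -/
def sg (χ : V →ₗ[ZMod 2] ZMod 2) (v : V) : ℤ := if χ v = 0 then 1 else -1

theorem sg_add (χ : V →ₗ[ZMod 2] ZMod 2) {v w : V} (h : χ w ≠ 0) :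
    sg χ (v + w) = - sg χ v := by
  unfold sg
  rw [map_add, zm_ne_zero h]
  rcases zm (χ v) with h1 | h1
  · rw [h1]
    simp
  · rw [h1]
    have : (1 : ZMod 2) + 1 = 0 := by decide
    rw [this]
    simp

theorem sg_odd (χ : V →ₗ[ZMod 2] ZMod 2) (v : V) : ∃ k : ℤ, sg χ v = 2 * k + 1 := by
  unfold sg
  split_ifs
  · exact ⟨0, by norm_num⟩
  · exact ⟨-1, by norm_num⟩

/-- a sum over a set which is stable under translation by `w`, `χ w ≠ 0`, is zero -/
theorem sum_zero [Fintype V] [DecidableEq V] (χ : V →ₗ[ZMod 2] ZMod 2) (s : Finset V) {w : V}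
    (hw : χ w ≠ 0) (hs : ∀ v ∈ s, v + w ∈ s) : ∑ v ∈ s, sg χ v = 0 := by
  have h1 : ∑ v ∈ s, sg χ v = ∑ v ∈ s, sg χ (v + w) := by
    apply Finset.sum_nbij' (fun v => v + w) (fun v => v + w)
    · exact hs
    · exact hs
    · intro v _
      rw [add_assoc, ZModModule.add_self, add_zero]
    · intro v _
      rw [add_assoc, ZModModule.add_self, add_zero]
    · intro v _
      rw [add_assoc, ZModModule.add_self, add_zero]
  have h2 : ∑ v ∈ s, sg χ (v + w) = - ∑ v ∈ s, sg χ v := by
    rw [← Finset.sum_neg_distrib]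
    exact Finset.sum_congr rfl fun v _ => sg_add χ hw
  rw [h2] at h1
  linarith

end Par_

open Par_ in
theorem parity {V B : Type} [AddCommGroup V] [Module (ZMod 2) V] [AddCommGroup B]
    [Module (ZMod 2) B] [Finite V] [Finite B] (q : V →ₗ[ZMod 2] V →ₗ[ZMod 2] B)
    (hq : IsLinked q 0) (hnd : Nondeg q) (χ : V →ₗ[ZMod 2] ZMod 2) (_hχ : χ ≠ 0) :
    ∃ g : V, ∀ v, q g v = 0 → χ v = 0 := by
  classical
  have := Fintype.ofFinite V
  have := Fintype.ofFinite B
  by_contra hcon
  push Not at hcon
  -- for all `x`, `c` the sum over `q x y = c` is zero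
  have h1 : ∀ (x : V) (c : B), ∑ y ∈ Finset.univ.filter (fun y => q x y = c), sg χ y = 0 := by
    intro x c
    obtain ⟨w, hw0, hw⟩ := hcon x
    apply sum_zero χ _ hw
    intro v hv
    rw [Finset.mem_filter] at hv ⊢
    refine ⟨Finset.mem_univ _, ?_⟩
    rw [map_add, hv.2, hw0, add_zero]
  -- numbers of common neighbours
  have h2 : ∀ (c : B) (y y' : V), (∃ u, q y u = c) → (∃ u, q y' u = c) →
      (Finset.univ.filter (fun x => q x y = 0 ∧ q x y' = 0)).card =
      (Finset.univ.filter (fun x => q x y = c ∧ q x y' = c)).card := by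
    rintro c y y' ⟨u, hu⟩ ⟨u', hu'⟩
    obtain ⟨t, ht1, ht2⟩ := hq.link y u y' u' (hu.trans hu'.symm)
    rw [hu] at ht1 ht2
    apply Finset.card_nbij' (fun x => x + t) (fun x => x + t)
    · intro x hx
      simp only [Finset.coe_filter, Finset.mem_univ, true_and, Set.mem_ofPred_eq] at hx ⊢
      refine ⟨?_, ?_⟩
      · rw [map_add, LinearMap.add_apply, hx.1, zero_add, hq.symm, ht1]
      · rw [map_add, LinearMap.add_apply, hx.2, zero_add, hq.symm, ht2]
    · intro x hx
      simp only [Finset.coe_filter, Finset.mem_univ, true_and, Set.mem_ofPred_eq] at hx ⊢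
      refine ⟨?_, ?_⟩
      · rw [map_add, LinearMap.add_apply, hx.1, hq.symm t, ht1, ZModModule.add_self]
      · rw [map_add, LinearMap.add_apply, hx.2, hq.symm t, ht2, ZModModule.add_self]
    · intro x _
      show x + t + t = x
      rw [add_assoc, ZModModule.add_self, add_zero]
    · intro x _
      show x + t + t = x
      rw [add_assoc, ZModModule.add_self, add_zero]
  -- the sum over `S_c` is zero
  have h3 : ∀ c : B, ∑ y ∈ Finset.univ.filter (fun y => ∃ u, q y u = c), sg χ y = 0 := by
    intro c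
    have key : ∑ x : V, (∑ y ∈ Finset.univ.filter (fun y => (∃ u, q y u = c) ∧ q x y = 0),
        sg χ y) ^ 2 = 0 := by
      have e1 : ∀ x : V, (∑ y ∈ Finset.univ.filter (fun y => (∃ u, q y u = c) ∧ q x y = 0),
          sg χ y) ^ 2 = ∑ y : V, ∑ y' : V, (if (∃ u, q y u = c) ∧ (∃ u, q y' u = c) then
            sg χ y * sg χ y' else 0) * (if q x y = 0 ∧ q x y' = 0 then 1 else 0) := by
        intro x
        rw [pow_two, Finset.sum_mul_sum, Finset.sum_filter]
        refine Finset.sum_congr rfl fun y _ => ?_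
        by_cases hy : (∃ u, q y u = c) ∧ q x y = 0
        · rw [if_pos hy, Finset.sum_filter]
          refine Finset.sum_congr rfl fun y' _ => ?_
          by_cases hy' : (∃ u, q y' u = c) ∧ q x y' = 0
          · rw [if_pos hy', if_pos ⟨hy.1, hy'.1⟩, if_pos ⟨hy.2, hy'.2⟩, mul_one]
          · rw [if_neg hy']
            by_cases h5 : ∃ u, q y' u = c
            · have h6 : ¬ (q x y = 0 ∧ q x y' = 0) := fun h => hy' ⟨h5, h.2⟩
              rw [if_neg h6, mul_zero]
            · have h6 : ¬ ((∃ u, q y u = c) ∧ ∃ u, q y' u = c) := fun h => h5 h.2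
              rw [if_neg h6, zero_mul]
        · rw [if_neg hy]
          symm
          apply Finset.sum_eq_zero
          intro y' _
          by_cases h5 : ∃ u, q y u = c
          · have h6 : ¬ (q x y = 0 ∧ q x y' = 0) := fun h => hy ⟨h5, h.1⟩
            rw [if_neg h6, mul_zero]
          · have h6 : ¬ ((∃ u, q y u = c) ∧ ∃ u, q y' u = c) := fun h => h5 h.1
            rw [if_neg h6, zero_mul]
      have e2 : ∀ x : V, (∑ y ∈ Finset.univ.filter (fun y => q x y = c), sg χ y) ^ 2 =
          ∑ y : V, ∑ y' : V, (if (∃ u, q y u = c) ∧ (∃ u, q y' u = c) then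
            sg χ y * sg χ y' else 0) * (if q x y = c ∧ q x y' = c then 1 else 0) := by
        intro x
        rw [pow_two, Finset.sum_mul_sum, Finset.sum_filter]
        refine Finset.sum_congr rfl fun y _ => ?_
        by_cases hy : q x y = c
        · rw [if_pos hy, Finset.sum_filter]
          refine Finset.sum_congr rfl fun y' _ => ?_
          by_cases hy' : q x y' = c
          · have h7 : ∃ u, q y u = c := ⟨x, by rw [hq.symm]; exact hy⟩
            have h8 : ∃ u, q y' u = c := ⟨x, by rw [hq.symm]; exact hy'⟩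
            rw [if_pos hy', if_pos ⟨h7, h8⟩, if_pos ⟨hy, hy'⟩, mul_one]
          · have h6 : ¬ (q x y = c ∧ q x y' = c) := fun h => hy' h.2
            rw [if_neg hy', if_neg h6, mul_zero]
        · rw [if_neg hy]
          symm
          apply Finset.sum_eq_zero
          intro y' _
          have h6 : ¬ (q x y = c ∧ q x y' = c) := fun h => hy h.1
          rw [if_neg h6, mul_zero]
      have e3 : ∑ x : V, (∑ y ∈ Finset.univ.filter (fun y => (∃ u, q y u = c) ∧ q x y = 0),
          sg χ y) ^ 2 = ∑ x : V, (∑ y ∈ Finset.univ.filter (fun y => q x y = c), sg χ y) ^ 2 := by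
        rw [Finset.sum_congr rfl fun x _ => e1 x, Finset.sum_congr rfl fun x _ => e2 x]
        rw [Finset.sum_comm, Finset.sum_comm (s := Finset.univ) (t := Finset.univ)
          (f := fun (x : V) (y : V) => ∑ y' : V, (if (∃ u, q y u = c) ∧ (∃ u, q y' u = c) then
            sg χ y * sg χ y' else 0) * (if q x y = c ∧ q x y' = c then 1 else 0))]
        refine Finset.sum_congr rfl fun y _ => ?_
        rw [Finset.sum_comm, Finset.sum_comm (s := Finset.univ) (t := Finset.univ)
          (f := fun (x : V) (y' : V) => (if (∃ u, q y u = c) ∧ (∃ u, q y' u = c) then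
            sg χ y * sg χ y' else 0) * (if q x y = c ∧ q x y' = c then 1 else 0))]
        refine Finset.sum_congr rfl fun y' _ => ?_
        rw [← Finset.mul_sum, ← Finset.mul_sum]
        by_cases hyy : (∃ u, q y u = c) ∧ (∃ u, q y' u = c)
        · congr 1
          rw [Finset.sum_boole, Finset.sum_boole, h2 c y y' hyy.1 hyy.2]
        · rw [if_neg hyy, zero_mul, zero_mul]
      rw [e3]
      apply Finset.sum_eq_zero
      intro x _
      rw [h1 x c]
      norm_num
    have h4 := (Finset.sum_eq_zero_iff_of_nonneg fun x _ => sq_nonneg _).1 key 0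
      (Finset.mem_univ _)
    have h5 := pow_eq_zero_iff (two_ne_zero) |>.1 h4
    rw [← h5]
    apply Finset.sum_congr _ fun _ _ => rfl
    ext y
    simp
  -- sum over `c`
  have h4 : ∑ c : B, ∑ y ∈ Finset.univ.filter (fun y => ∃ u, q y u = c), sg χ y =
      ∑ y : V, (Fintype.card (LinearMap.range (q y)) : ℤ) * sg χ y := by
    have : ∀ c : B, ∑ y ∈ Finset.univ.filter (fun y => ∃ u, q y u = c), sg χ y =
        ∑ y : V, if ∃ u, q y u = c then sg χ y else 0 := fun c => Finset.sum_filter _ _
    rw [Finset.sum_congr rfl fun c _ => this c, Finset.sum_comm]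
    refine Finset.sum_congr rfl fun y _ => ?_
    rw [← Finset.sum_filter, Finset.sum_const, nsmul_eq_mul]
    congr 2
    rw [Fintype.card_subtype]
    congr 1
    ext a
    simp only [Finset.mem_filter, Finset.mem_univ, true_and, LinearMap.mem_range]
  have h5 : ∑ y : V, (Fintype.card (LinearMap.range (q y)) : ℤ) * sg χ y = 0 := by
    rw [← h4]
    exact Finset.sum_eq_zero fun c _ => h3 c
  -- parity
  have h6 : ∀ y : V, y ≠ 0 → (2 : ℤ) ∣ (Fintype.card (LinearMap.range (q y)) : ℤ) := by
    intro y hy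
    have h7 : ∃ v, q y v ≠ 0 := by
      by_contra h8
      push Not at h8
      exact hy (hnd y h8)
    obtain ⟨v, hv⟩ := h7
    have h8 : Nontrivial (LinearMap.range (q y)) :=
      ⟨⟨⟨q y v, v, rfl⟩, 0, fun h => hv (congrArg Subtype.val h)⟩⟩
    have h9 := Module.card_eq_pow_finrank (K := ZMod 2) (V := LinearMap.range (q y))
    rw [ZMod.card] at h9
    rw [h9]
    have h10 : 0 < finrank (ZMod 2) (LinearMap.range (q y)) := Module.finrank_pos
    obtain ⟨k, hk⟩ := Nat.exists_eq_succ_of_ne_zero h10.ne'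
    rw [hk, pow_succ]
    exact ⟨2 ^ k, by push_cast; ring⟩
  have h7 : (2 : ℤ) ∣ (Fintype.card (LinearMap.range (q 0)) : ℤ) * sg χ 0 := by
    have h8 := Finset.add_sum_erase Finset.univ
      (fun y : V => (Fintype.card (LinearMap.range (q y)) : ℤ) * sg χ y) (Finset.mem_univ 0)
    rw [h5] at h8
    have h9 : (2 : ℤ) ∣ ∑ y ∈ Finset.univ.erase (0 : V),
        (Fintype.card (LinearMap.range (q y)) : ℤ) * sg χ y := by
      apply Finset.dvd_sum
      intro y hy
      exact Dvd.dvd.mul_right (h6 y (Finset.ne_of_mem_erase hy)) _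
    have h10 : (Fintype.card (LinearMap.range (q 0)) : ℤ) * sg χ 0 =
        - ∑ y ∈ Finset.univ.erase (0 : V),
        (Fintype.card (LinearMap.range (q y)) : ℤ) * sg χ y := by
      linarith
    rw [h10]
    exact (dvd_neg).2 h9
  have h8 : Fintype.card (LinearMap.range (q 0)) = 1 := by
    rw [Fintype.card_eq_one_iff]
    refine ⟨0, ?_⟩
    rintro ⟨y, v, hv⟩
    apply Subtype.ext
    rw [map_zero, LinearMap.zero_apply] at hv
    exact hv.symm
  rw [h8] at h7
  obtain ⟨k, hk⟩ := sg_odd χ 0
  rw [hk] at h7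
  omega

end Pool.Agent.LBD
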